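import Mathlib
import Pool.Agent.Lib.MP_2fb4be_al.Defs

/-!
Amenable groups, and groups in which far conjugates can be chosen inside an amenable subgroup.
-/

set_option autoImplicit false

namespace Pool.Agent.Lib.MP_2fb4be_al

/-- `H` is amenable: it carries a left invariant finitely additive probability measure defined on
all subsets. -/
def IsAmenable (H : Type) [Group H] : Prop :=
  ∃ μ : Set H → ℝ, (∀ s, 0 ≤ μ s) ∧ μ Set.univ = 1 ∧
    (∀ s t, Disjoint s t → μ (s ∪ t) = μ s + μ t) ∧ ∀ (g : H) (s : Set H), μ ((g * ·) '' s) = μ s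

/-- The elements that commute with some positive power of `d`. -/
def Cinf {G : Type} [Group G] (d : G) : Subgroup G where
  carrier := {h | ∃ n : ℕ, 0 < n ∧ Commute h (d ^ n)}
  one_mem' := ⟨1, one_pos, Commute.one_left _⟩
  mul_mem' := by
    rintro a b ⟨m, hm, ha⟩ ⟨n, hn, hb⟩
    refine ⟨m * n, Nat.mul_pos hm hn, Commute.mul_left ?_ ?_⟩
    · rw [pow_mul]; exact ha.pow_right n
    · rw [mul_comm, pow_mul]; exact hb.pow_right m
  inv_mem' := by
    rintro a ⟨m, hm, ha⟩
    exact ⟨m, hm, ha.inv_left⟩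

/-- For all elements `d 1, …, d n` with `Cinf (d i)` of infinite index and every `N` there are,
for each `i`, elements `t i 1, …, t i N` in different left cosets of `Cinf (d i)` such that for
suitable arbitrarily large exponents `j i` all the conjugates of the `t i a` by `d i ^ j i`
together generate an amenable subgroup. -/
def AmenablyConjugable (G : Type) [Group G] : Prop :=
  ∀ (n N : ℕ) (d : Fin n → G), (∀ i, ¬ (Cinf (d i)).FiniteIndex) →
    ∃ t : Fin n → Fin N → G, (∀ i a b, a ≠ b → (t i a)⁻¹ * t i b ∉ Cinf (d i)) ∧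
      ∀ j₀ : ℕ, ∃ j : Fin n → ℕ, (∀ i, j₀ ≤ j i) ∧
        IsAmenable (Subgroup.closure
          {g | ∃ i a, g = d i ^ j i * t i a * (d i ^ j i)⁻¹})

end Pool.Agent.Lib.MP_2fb4be_al
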