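import Mathlib
import Pool.Agent.Lib.MP_2fb4be_al.Am.Defs

/-!
Words, loops and the fellow traveller property.
-/

set_option autoImplicit false

namespace Pool.Agent.Lib.MP_2fb4be_al.Am

open scoped Pointwise

variable {G A σ : Type} [Group G]

def ev (f : A → G) (w : List A) : G := (w.map f).prod

def rep (d : List A) (j : ℕ) : List A := (List.replicate j d).flatten

@[simp] theorem ev_nil (f : A → G) : ev f [] = 1 := rfl

@[simp] theorem ev_append (f : A → G) (u v : List A) : ev f (u ++ v) = ev f u * ev f v := by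
  simp [ev]

@[simp] theorem ev_cons (f : A → G) (a : A) (v : List A) : ev f (a :: v) = f a * ev f v := by
  simp [ev]

@[simp] theorem rep_zero (d : List A) : rep d 0 = [] := rfl

theorem rep_succ (d : List A) (j : ℕ) : rep d (j + 1) = d ++ rep d j := by
  simp [rep, List.replicate_succ]

theorem rep_add (d : List A) (i j : ℕ) : rep d (i + j) = rep d i ++ rep d j := by
  induction i with
  | zero => simp
  | succ i ih => rw [Nat.add_right_comm, rep_succ, rep_succ, ih, List.append_assoc]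

@[simp] theorem ev_rep (f : A → G) (d : List A) (j : ℕ) : ev f (rep d j) = ev f d ^ j := by
  induction j with
  | zero => simp
  | succ j ih => rw [rep_succ, ev_append, ih, pow_succ']

@[simp] theorem length_rep (d : List A) (j : ℕ) : (rep d j).length = j * d.length := by
  induction j with
  | zero => simp
  | succ j ih => rw [rep_succ, List.length_append, ih]; ring

theorem le_length_rep {d : List A} (hd : d ≠ []) (j : ℕ) : j ≤ (rep d j).length := by
  rw [length_rep]
  exact Nat.le_mul_of_pos_right _ (List.length_pos_iff.2 hd)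

theorem loop_rep (M : DFA A σ) {s : σ} {d : List A} (h : M.evalFrom s d = s) (j : ℕ) :
    M.evalFrom s (rep d j) = s := by
  induction j with
  | zero => simp
  | succ j ih => rw [rep_succ, DFA.evalFrom_of_append, h, ih]

theorem pigeon {X : Type} {S : Set X} (hS : S.Finite) : ∃ n : ℕ, ∀ F : ℕ → X,
    (∀ i ≤ n, F i ∈ S) → ∃ i i', i < i' ∧ i' ≤ n ∧ F i = F i' := by
  refine ⟨hS.toFinset.card, fun F hF => ?_⟩
  obtain ⟨x, hx, y, hy, hxy, e⟩ := Finset.exists_ne_map_eq_of_card_lt_of_maps_to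
    (s := Finset.range (hS.toFinset.card + 1)) (t := hS.toFinset) (f := F) (by simp)
    (fun i hi => by simpa using hF i (by simpa [Nat.lt_succ_iff] using hi))
  simp only [Finset.mem_range] at hx hy
  rcases lt_or_gt_of_ne hxy with h | h
  · exact ⟨x, y, h, by omega, e⟩
  · exact ⟨y, x, h, by omega, e.symm⟩

theorem pow_mem_of_finite (C : Subgroup G) [C.Normal] {S : Set (G ⧸ C)} (hS : S.Finite) (a D : G)
    (h : ∀ t : ℕ, ((a * D ^ t : G) : G ⧸ C) ∈ S) : ∃ n, 0 < n ∧ D ^ n ∈ C := by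
  obtain ⟨n, hn⟩ := pigeon hS
  obtain ⟨i, i', h1, -, h2⟩ := hn (fun t => ((a * D ^ t : G) : G ⧸ C)) fun i _ => h i
  obtain ⟨k, rfl⟩ := Nat.exists_eq_add_of_lt h1
  refine ⟨k + 1, by omega, ?_⟩
  have := QuotientGroup.eq.1 h2
  rwa [add_assoc, pow_add, ← mul_assoc a, inv_mul_cancel_left] at this

theorem fin_take (f : A → G) (w : List A) : (Set.range fun t => ev f (w.take t)).Finite := by
  refine ((Set.finite_Iic w.length).image fun t => ev f (w.take t)).subset ?_
  rintro _ ⟨t, rfl⟩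
  rcases le_total t w.length with h | h
  · exact ⟨t, h, rfl⟩
  · exact ⟨w.length, le_refl w.length, by simp [List.take_of_length_le h]⟩

theorem take_rep (f : A → G) (w : List A) (N : ℕ) :
    ∀ t, ∃ i t', ev f ((rep w N).take t) = ev f w ^ i * ev f (w.take t') := by
  induction N with
  | zero => exact fun t => ⟨0, 0, by simp⟩
  | succ N ih =>
    intro t
    rw [rep_succ, List.take_append]
    rcases le_total t w.length with h | h
    · exact ⟨0, t, by simp [Nat.sub_eq_zero_of_le h]⟩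
    · obtain ⟨i, t', e⟩ := ih (t - w.length)
      exact ⟨i + 1, t', by rw [ev_append, e, List.take_of_length_le h, pow_succ', mul_assoc]⟩

/-- The fellow traveller property with a finite set of word differences for each multiplier. -/
def FT (f : A → G) (M : DFA A σ) : Prop := ∀ g : G, ∃ Φ : Set G, Φ.Finite ∧ ∀ u v,
  M.eval u ∈ M.accept → M.eval v ∈ M.accept → ev f u * g = ev f v →
    ∀ t, (ev f (u.take t))⁻¹ * ev f (v.take t) ∈ Φ

theorem parallel {f : A → G} {M : DFA A σ} (hF : FT f M) (C : Subgroup G) [C.Normal]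
    (α w : List A) (hw : w ≠ []) {n : ℕ} (hn : 0 < n) (hC : ev f w ^ n ∈ C) :
    ∃ Ψ : Set (G ⧸ C), Ψ.Finite ∧ ∀ N β ρ β', M.eval (α ++ rep w N ++ β) ∈ M.accept →
      M.eval (ρ ++ β') ∈ M.accept → ev f (α ++ rep w N ++ β) = ev f (ρ ++ β') → ρ.length ≤ N →
      ((ev f ρ : G) : G ⧸ C) ∈ Ψ := by
  obtain ⟨Φ, hΦ, h⟩ := hF 1
  have fo : IsOfFinOrder ((ev f w : G) : G ⧸ C) :=
    isOfFinOrder_iff_pow_eq_one.2 ⟨n, hn, by
      rw [← QuotientGroup.mk_pow]; exact (QuotientGroup.eq_one_iff _).2 hC⟩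
  let π := QuotientGroup.mk' C
  refine ⟨π '' (Set.range fun t => ev f (α.take t)) * (Submonoid.powers ((ev f w : G) : G ⧸ C) : Set (G ⧸ C)) *
    π '' (Set.range fun t => ev f (w.take t)) * π '' Φ,
    ((((fin_take f α).image _).mul fo.finite_powers).mul ((fin_take f w).image _)).mul
      (hΦ.image _), fun N β ρ β' h1 h2 h3 h4 => ?_⟩
  have h5 := h _ _ h1 h2 (by rw [mul_one, h3]) ρ.length
  have h6 : ρ.length ≤ (α ++ rep w N).length := by
    have := le_length_rep hw N
    rw [List.length_append]; omega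
  rw [List.take_append_of_le_length h6, List.take_left, List.take_append, ev_append] at h5
  obtain ⟨i, t', e⟩ := take_rep f w N (ρ.length - α.length)
  rw [e] at h5
  refine ⟨_, ⟨_, ⟨_, ⟨_, ⟨ρ.length, rfl⟩, rfl⟩, _, ⟨i, rfl⟩, rfl⟩, _, ⟨_, ⟨t', rfl⟩, rfl⟩, rfl⟩,
    _, ⟨_, h5, rfl⟩, ?_⟩
  simp only [π, QuotientGroup.mk'_apply, ← QuotientGroup.mk_pow, ← QuotientGroup.mk_mul]
  congr 1
  group

/-- No state reached after a non-empty prefix of `m` satisfies `P`. -/
def Tail (M : DFA A σ) (P : σ → Prop) (s : σ) (m : List A) : Prop :=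
  ∀ m₁ m₂, m = m₁ ++ m₂ → m₁ ≠ [] → ¬ P (M.evalFrom s m₁)

theorem last_visit (M : DFA A σ) (P : σ → Prop) (u : List A) : ∀ s,
    (¬ P s ∧ Tail M P s u) ∨ ∃ p m, u = p ++ m ∧ P (M.evalFrom s p) ∧
      Tail M P (M.evalFrom s p) m := by
  induction u with
  | nil =>
    intro s
    have : Tail M P s [] := fun m₁ m₂ h h' => absurd (List.append_eq_nil_iff.1 h.symm).1 h'
    by_cases h : P s
    · exact Or.inr ⟨[], [], rfl, h, this⟩
    · exact Or.inl ⟨h, this⟩
  | cons a u ih =>
    intro s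
    rcases ih (M.step s a) with ⟨h1, h2⟩ | ⟨p, m, rfl, h1, h2⟩
    · have : Tail M P s (a :: u) := by
        rintro (_ | ⟨b, m₁⟩) m₂ h h'
        · exact absurd rfl h'
        · obtain ⟨rfl, rfl⟩ := List.cons.inj h
          by_cases e : m₁ = []
          · subst e; exact h1
          · exact h2 m₁ m₂ rfl e
      by_cases h : P s
      · exact Or.inr ⟨[], a :: u, rfl, h, this⟩
      · exact Or.inl ⟨h, this⟩
    · exact Or.inr ⟨a :: p, m, rfl, h1, h2⟩

theorem paths_finite [Finite A] (f : A → G) (M : DFA A σ) (C : Subgroup G) [C.Normal]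
    (S : Finset σ) : (∀ t ∈ S, {q : G ⧸ C | ∃ w, M.evalFrom t w = t ∧ q = (ev f w : G)}.Finite) →
    ∀ s, {q : G ⧸ C | ∃ m, Tail M (· ∉ S) s m ∧ q = (ev f m : G)}.Finite := by
  classical
  induction S using Finset.strongInduction with
  | H S ih =>
    intro hS s
    have key : ∀ t ∈ S, {q : G ⧸ C | ∃ m, Tail M (· ∉ S) t m ∧ q = (ev f m : G)}.Finite := by
      intro t ht
      refine ((hS t ht).mul (ih (S.erase t) (Finset.erase_ssubset ht)
        (fun x hx => hS x (Finset.mem_of_mem_erase hx)) t)).subset ?_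
      rintro _ ⟨m, hm, rfl⟩
      rcases last_visit M (· = t) m t with ⟨h, -⟩ | ⟨p, m', rfl, h1, h2⟩
      · exact absurd rfl h
      · refine ⟨_, ⟨p, h1, rfl⟩, _, ⟨m', fun m₁ m₂ e h => ?_, rfl⟩, by simp⟩
        have a1 := hm (p ++ m₁) m₂ (by rw [e, List.append_assoc]) (by simp [h])
        have a2 := h2 m₁ m₂ e h
        rw [DFA.evalFrom_of_append, h1] at a1
        rw [h1] at a2
        simpa using ⟨a2, by simpa using a1⟩
    refine ((Set.finite_singleton 1).union (Set.finite_iUnion (ι := {a : A // M.step s a ∈ S})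
      fun a => (key _ a.2).image fun q => ((f a.1 : G) : G ⧸ C) * q)).subset ?_
    rintro _ ⟨_ | ⟨a, m⟩, hm, rfl⟩
    · exact Or.inl rfl
    · have h1 : M.step s a ∈ S := by simpa using hm [a] m rfl (by simp)
      refine Or.inr (Set.mem_iUnion.2 ⟨⟨a, h1⟩, _, ⟨m, fun m₁ m₂ e _ => ?_, rfl⟩, by simp⟩)
      exact hm (a :: m₁) m₂ (by rw [e]; rfl) (by simp)

end Pool.Agent.Lib.MP_2fb4be_al.Am
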