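import Mathlib
import Pool.Agent.Lib.MP_2fb4be_al.Am.Words

/-!
Pumping a loop in two accepted words at once.
-/

set_option autoImplicit false

namespace Pool.Agent.Lib.MP_2fb4be_al.Am

variable {G A σ : Type} [Group G] {f : A → G} {M : DFA A σ}

def Acc (M : DFA A σ) (s : σ) : Prop := ∃ p, M.eval p = s

def Co (M : DFA A σ) (s : σ) : Prop := ∃ q, M.evalFrom s q ∈ M.accept

/-- There are non-empty loops at `s`, and none of them has a positive power in `C`. -/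
def Wild (f : A → G) (M : DFA A σ) (C : Subgroup G) (s : σ) : Prop :=
  (∃ c, c ≠ [] ∧ M.evalFrom s c = s) ∧
    ∀ c, c ≠ [] → M.evalFrom s c = s → ∀ n, 0 < n → ev f c ^ n ∉ C

theorem eval_app (M : DFA A σ) (u v : List A) : M.eval (u ++ v) = M.evalFrom (M.eval u) v :=
  DFA.evalFrom_of_append M _ u v

theorem exists_pow_mem (H : Subgroup G) [H.FiniteIndex] (g : G) : ∃ n, 0 < n ∧ g ^ n ∈ H := by
  obtain ⟨n, h1, -, h2⟩ := Subgroup.exists_pow_mem_of_index_ne_zero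
    (Subgroup.FiniteIndex.index_ne_zero (H := H)) g
  exact ⟨n, h1, h2⟩

section

variable (hF : FT f M) {G₀ C : Subgroup G} [G₀.Normal] [C.Normal] [G₀.FiniteIndex]
  (hc : ∀ a ∈ G₀, ∀ b ∈ C, Commute a b)

include hF hc

omit [G₀.Normal] in
theorem loops_finite {t : σ} (h1 : Acc M t) (h2 : Co M t) (h3 : ¬ Wild f M C t) :
    {q : G ⧸ C | ∃ w, M.evalFrom t w = t ∧ q = (ev f w : G)}.Finite := by
  by_cases h0 : ∃ c, c ≠ [] ∧ M.evalFrom t c = t
  swap
  · refine (Set.finite_singleton 1).subset ?_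
    rintro _ ⟨w, hw, rfl⟩
    have : w = [] := by
      by_contra h
      exact h0 ⟨w, h, hw⟩
    subst this
    rfl
  obtain ⟨c, c1, c2, n, n1, n2⟩ : ∃ c, c ≠ [] ∧ M.evalFrom t c = t ∧ ∃ n, 0 < n ∧
      ev f c ^ n ∈ C := by
    by_contra h
    exact h3 ⟨h0, fun c c1 c2 n n1 n2 => h ⟨c, c1, c2, n, n1, n2⟩⟩
  obtain ⟨p, hp⟩ := h1
  obtain ⟨q, hq⟩ := h2
  obtain ⟨Ψ, hΨ, h⟩ := parallel hF C p c c1 n1 n2
  refine (hΨ.image fun x => ((ev f p : G) : G ⧸ C)⁻¹ * x).subset ?_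
  rintro _ ⟨w, hw, rfl⟩
  obtain ⟨k, k1, k2⟩ := exists_pow_mem G₀ (ev f w)
  obtain ⟨k, rfl⟩ : ∃ k', k = k' + 1 := ⟨k - 1, by omega⟩
  refine ⟨_, h (n * (p ++ w).length) (rep w (k + 1) ++ q) (p ++ w)
    (rep w k ++ (rep c (n * (p ++ w).length) ++ q)) ?_ ?_ ?_ (Nat.le_mul_of_pos_left _ n1), by simp⟩
  · simp only [eval_app, DFA.evalFrom_of_append, hp, loop_rep M c2, loop_rep M hw, hq]
  · simp only [eval_app, DFA.evalFrom_of_append, hp, loop_rep M c2, loop_rep M hw, hw, hq]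
  · have := ((hc _ k2 _ n2).pow_right (p ++ w).length).eq
    rw [← pow_mul] at this
    simp only [ev_append, ev_rep, mul_assoc]
    rw [← mul_assoc (ev f c ^ _), ← this, pow_succ']
    simp only [mul_assoc]

omit [G₀.Normal] in
theorem loop_pow {t : σ} (h1 : Acc M t) (h2 : Co M t) (h3 : ¬ Wild f M C t) {c : List A}
    (h4 : M.evalFrom t c = t) : ∃ n, 0 < n ∧ ev f c ^ n ∈ G₀ ⊓ C := by
  obtain ⟨n, n1, n2⟩ := pow_mem_of_finite C (loops_finite hF hc h1 h2 h3) 1 (ev f c) fun k =>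
    ⟨rep c k, loop_rep M h4 k, by simp⟩
  obtain ⟨k, k1, k2⟩ := exists_pow_mem G₀ (ev f c)
  refine ⟨n * k, Nat.mul_pos n1 k1, ?_, ?_⟩
  · rw [mul_comm, pow_mul]; exact G₀.pow_mem k2 n
  · rw [pow_mul]; exact C.pow_mem n2 k

omit hc [G₀.FiniteIndex] in
theorem hybrid {s : σ} {d W₁ w W₂ m₁ c m₂ : List A} (hs : M.evalFrom s d = s)
    (hw : w ≠ []) (e1 : M.eval (W₁ ++ w) = M.eval W₁) (e2 : M.eval (W₁ ++ w ++ W₂) = s)
    (e3 : M.evalFrom s (m₁ ++ c) = M.evalFrom s m₁) (e4 : M.evalFrom s (m₁ ++ c ++ m₂) ∈ M.accept)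
    {n : ℕ} (hn : 0 < n) (hc : ev f c ^ n ∈ G₀ ⊓ C) (P : G)
    (e5 : (P * ev f m₁)⁻¹ * ev f W₁ = (P * ev f (m₁ ++ c))⁻¹ * ev f (W₁ ++ w))
    (e6 : ∀ (J : ℕ), ∀ ζ ∈ G₀ ⊓ C, Commute (ev f (W₁ ++ w ++ W₂) * ev f d ^ J * P⁻¹) ζ) :
    ∃ k, 0 < k ∧ ev f d ^ k ∈ C := by
  rw [eval_app] at e1
  rw [eval_app, eval_app, e1] at e2
  rw [DFA.evalFrom_of_append] at e3
  rw [DFA.evalFrom_of_append, DFA.evalFrom_of_append, e3] at e4
  obtain ⟨ξ, hξ⟩ : ∃ ξ, ξ = P * ev f m₁ * ev f c * (P * ev f m₁)⁻¹ := ⟨_, rfl⟩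
  have x1 : ev f w = (ev f W₁)⁻¹ * ξ * ev f W₁ := by
    rw [ev_append, ev_append] at e5
    have : ev f W₁ * ev f w = P * (ev f m₁ * ev f c) * ((P * ev f m₁)⁻¹ * ev f W₁) := by
      rw [e5]; group
    rw [hξ, eq_comm, mul_assoc, inv_mul_eq_iff_eq_mul, this]
    group
  have x2 : ξ ^ n ∈ G₀ ⊓ C := by
    rw [hξ, conj_pow]
    exact Subgroup.Normal.conj_mem inferInstance _ hc _
  have x3 : ∀ k : ℕ, ev f w ^ k = (ev f W₁)⁻¹ * ξ ^ k * ev f W₁ := fun k => by
    have := conj_pow (a := (ev f W₁)⁻¹) (b := ξ) (i := k)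
    rwa [inv_inv, ← x1] at this
  have x4 : ∀ k : ℕ, ev f c ^ k = (P * ev f m₁)⁻¹ * ξ ^ k * (P * ev f m₁) := fun k => by
    rw [hξ, conj_pow]; group
  obtain ⟨Ψ, hΨ, h⟩ := parallel hF C W₁ w hw hn (by
    rw [x3]
    simpa using Subgroup.Normal.conj_mem (inferInstance : C.Normal) _ x2.2 (ev f W₁)⁻¹)
  refine pow_mem_of_finite C hΨ (ev f (W₁ ++ w ++ W₂)) (ev f d) fun J => ?_
  obtain ⟨N, hN⟩ : ∃ N, N = (W₁ ++ w ++ W₂ ++ rep d J).length := ⟨_, rfl⟩
  have := h (n * N + 1) (W₂ ++ (rep d J ++ (m₁ ++ (c ++ m₂)))) (W₁ ++ w ++ W₂ ++ rep d J)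
    (m₁ ++ (rep c (n * N + 1) ++ m₂)) ?_ ?_ ?_ (by
      have := Nat.le_mul_of_pos_left N hn
      omega)
  · simpa [mul_assoc] using this
  · simp only [eval_app, DFA.evalFrom_of_append, loop_rep M e1, e2, loop_rep M hs, e3, e4]
  · simp only [eval_app, DFA.evalFrom_of_append, e1, e2, loop_rep M hs, loop_rep M e3, e4]
  · have y1 := (e6 J _ ((G₀ ⊓ C).pow_mem x2 N)).eq
    rw [← pow_mul] at y1
    simp only [ev_append, ev_rep] at y1 ⊢
    rw [pow_succ, pow_succ, x3, x4 (n * N)]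
    calc _ = ξ ^ (n * N) * (ev f W₁ * ev f w * ev f W₂ * ev f d ^ J * P⁻¹) *
          (P * ev f m₁ * ev f c * ev f m₂) := by group
      _ = _ := by rw [← y1]; group

theorem half [Finite σ] {s : σ} {d : List A} (hd : d ≠ []) (hs : M.evalFrom s d = s)
    (hG : ev f d ∈ G₀) (hw : Wild f M C s) {Φ : Set G} (hΦ : Φ.Finite) :
    ∃ j₀, ∀ j, j₀ ≤ j → ∀ p p' m m', M.eval p = s → M.eval p' = s →
      M.evalFrom s m ∈ M.accept → Tail M (Wild f M C) s m → p.length ≤ p'.length →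
      (∀ ζ ∈ G₀ ⊓ C, Commute ((ev f p)⁻¹ * ev f p') ζ) →
      (∀ t, (ev f ((p ++ rep d j ++ m).take t))⁻¹ * ev f ((p' ++ rep d j ++ m').take t) ∈ Φ) →
      (ev f p)⁻¹ * ev f p' ∈ Cinf (ev f d) := by
  obtain ⟨n₁, h₁⟩ := pigeon hΦ
  obtain ⟨n₂, h₂⟩ := pigeon ((Set.finite_univ (α := σ × σ)).prod hΦ)
  refine ⟨n₁ + n₂, fun j hj p p' m m' e1 e2 e3 e4 e5 e6 e7 => ?_⟩
  obtain ⟨a, ha⟩ := Nat.exists_eq_add_of_le e5
  rcases le_or_gt a n₂ with h | h
  · have key : ∀ i ≤ n₁, (ev f ((rep d a).take a))⁻¹ * ((ev f d ^ i)⁻¹ *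
        ((ev f p)⁻¹ * ev f p') * ev f d ^ i) ∈ Φ := by
      intro i hi
      obtain ⟨r, rfl⟩ : ∃ r, j = i + a + r := ⟨j - (i + a), by omega⟩
      have := e7 (p' ++ rep d i).length
      have a1 : (p' ++ rep d (i + a + r) ++ m').take (p' ++ rep d i).length = p' ++ rep d i := by
        rw [add_assoc, rep_add, ← List.append_assoc, List.append_assoc (p' ++ rep d i),
          List.take_left]
      have a2 : (p ++ rep d (i + a + r) ++ m).take (p' ++ rep d i).length =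
          p ++ rep d i ++ (rep d a).take a := by
        have : (p' ++ rep d i).length = (p ++ rep d i).length + a := by
          simp only [List.length_append]; omega
        rw [this, rep_add, rep_add, ← List.append_assoc, ← List.append_assoc,
          List.append_assoc (p ++ rep d i ++ rep d a), List.append_assoc (p ++ rep d i),
          List.take_length_add_append, List.take_append_of_le_length (le_length_rep hd a)]
      rw [a1, a2] at this
      simp only [ev_append, ev_rep] at this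
      convert this using 1
      group
    obtain ⟨i, i', l1, -, l2⟩ := h₁ _ key
    obtain ⟨k, rfl⟩ := Nat.exists_eq_add_of_lt l1
    refine ⟨k + 1, by omega, ?_⟩
    have l3 := mul_left_cancel l2
    rw [show i + k + 1 = (k + 1) + i by omega, pow_add] at l3
    generalize (ev f p)⁻¹ * ev f p' = z at l3
    show z * _ = _ * z
    calc z * ev f d ^ (k + 1) = ev f d ^ (k + 1) * ev f d ^ i *
          ((ev f d ^ (k + 1) * ev f d ^ i)⁻¹ * z * (ev f d ^ (k + 1) * ev f d ^ i)) *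
          (ev f d ^ i)⁻¹ := by group
      _ = _ := by rw [← l3]; group
  · exfalso
    obtain ⟨W, hW⟩ : ∃ W, W = p' ++ rep d j := ⟨_, rfl⟩
    obtain ⟨τ, hτ⟩ : ∃ τ, τ = (p ++ rep d j).length := ⟨_, rfl⟩
    have lW : W.length = τ + a := by
      simp only [hW, hτ, List.length_append]; omega
    obtain ⟨i, i', l1, l2, l3⟩ := h₂ (fun i => ((M.evalFrom s (m.take (i + 1)),
      M.eval (W.take (τ + (i + 1)))), (ev f p * ev f d ^ j * ev f (m.take (i + 1)))⁻¹ *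
        ev f (W.take (τ + (i + 1))))) fun i hi => ⟨trivial, by
      have := e7 (τ + (i + 1))
      rw [← hW, List.take_append_of_le_length (l₁ := W) (by omega), hτ,
        List.take_length_add_append, ← hτ] at this
      simpa only [ev_append, ev_rep] using this⟩
    obtain ⟨k, rfl⟩ := Nat.exists_eq_add_of_lt l1
    simp only [Prod.mk.injEq] at l3
    obtain ⟨⟨s1, s2⟩, s3⟩ := l3
    have t1 : m.take (i + k + 1 + 1) = m.take (i + 1) ++ (m.drop (i + 1)).take (k + 1) := by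
      rw [← List.take_add]; congr 1; omega
    have t2 : W.take (τ + (i + k + 1 + 1)) =
        W.take (τ + (i + 1)) ++ (W.drop (τ + (i + 1))).take (k + 1) := by
      rw [← List.take_add]; congr 1; omega
    have t3 := List.take_append_drop (i + k + 1 + 1) m
    have t4 := List.take_append_drop (τ + (i + k + 1 + 1)) W
    rw [t1] at s1 s3 t3
    rw [t2] at s2 s3 t4
    have t5 : (W.drop (τ + (i + 1))).take (k + 1) ≠ [] := by
      rw [← List.length_pos_iff, List.length_take, List.length_drop]; omega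
    have t6 : m ≠ [] → m.take (i + 1) ≠ [] := by
      cases m <;> simp
    have t7 : m = [] → (m.drop (i + 1)).take (k + 1) = [] := by
      rintro rfl; simp
    generalize (W.drop (τ + (i + 1))).take (k + 1) = w at *
    generalize (m.drop (i + 1)).take (k + 1) = c at *
    generalize W.take (τ + (i + 1)) = W₁ at *
    generalize m.take (i + 1) = m₁ at *
    obtain ⟨n, n1, n2⟩ : ∃ n, 0 < n ∧ ev f c ^ n ∈ G₀ ⊓ C := by
      by_cases hm : m = []
      · exact ⟨1, one_pos, by rw [t7 hm]; simp⟩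
      · refine loop_pow hF hc (t := M.evalFrom s m₁) ⟨p ++ m₁, by rw [eval_app, e1]⟩
          ⟨c ++ m.drop (i + k + 1 + 1), ?_⟩ (e4 m₁ _ (by rw [← List.append_assoc, t3]) (t6 hm)) ?_
        · rwa [← DFA.evalFrom_of_append, ← List.append_assoc, t3]
        · rw [← DFA.evalFrom_of_append, ← s1]
    obtain ⟨r, r1, r2⟩ := hybrid hF (G₀ := G₀) (C := C) (W₂ := W.drop (τ + (i + k + 1 + 1)))
      (m₂ := m.drop (i + k + 1 + 1)) hs t5 s2.symm
      (by rw [t4, hW, eval_app, e2, loop_rep M hs]) s1.symm (by rwa [t3]) n1 n2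
      (ev f p * ev f d ^ j) s3 (fun J ζ hζ => by
        rw [t4, hW, ev_append, ev_rep]
        have z1 : (ev f p)⁻¹ * ζ * (ev f p)⁻¹⁻¹ ∈ G₀ ⊓ C :=
          Subgroup.Normal.conj_mem inferInstance _ hζ _
        have z2 := ((e6 _ z1).mul_left (hc _ (G₀.pow_mem hG J) _ z1.2)).eq
        show _ * ζ = ζ * _
        calc _ = ev f p * ((ev f p)⁻¹ * ev f p' * ev f d ^ J *
              ((ev f p)⁻¹ * ζ * (ev f p)⁻¹⁻¹)) * (ev f p)⁻¹ := by group
          _ = _ := by rw [z2]; group)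
    exact hw.2 d hd hs r r1 r2

end

end Pool.Agent.Lib.MP_2fb4be_al.Am
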