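import Mathlib
import Pool.Agent.Lib.MP_2fb4be_al.Am.Pump

/-!
An automatic group that is not virtually abelian has a finite cover by wandering sets.
-/

set_option autoImplicit false

namespace Pool.Agent.Lib.MP_2fb4be_al.Am

open scoped Pointwise

variable {G A σ : Type} [Group G] {f : A → G} {M : DFA A σ}

theorem ft_of [Finite A] {k : ℕ} (h1 : ∀ g : G, ∃ w, M.eval w ∈ M.accept ∧ ev f w = g)
    (h2 : ∀ u v, M.eval u ∈ M.accept → M.eval v ∈ M.accept →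
      (∃ s : List A, s.length ≤ 1 ∧ ev f u * ev f s = ev f v) →
      ∀ t : ℕ, ∃ s : List A, s.length ≤ k ∧ ev f (u.take t) * ev f s = ev f (v.take t)) :
    FT f M := by
  have hB : (ev f '' {s : List A | s.length ≤ k}).Finite := (List.finite_length_le A k).image _
  have one : ∀ s : List A, s.length ≤ 1 → ∀ u v, M.eval u ∈ M.accept → M.eval v ∈ M.accept →
      ev f u * ev f s = ev f v → ∀ t, (ev f (u.take t))⁻¹ * ev f (v.take t) ∈
        ev f '' {s : List A | s.length ≤ k} := by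
    intro s hs u v hu hv e t
    obtain ⟨s', a1, a2⟩ := h2 u v hu hv ⟨s, hs, e⟩ t
    exact ⟨s', a1, by rw [← a2, inv_mul_cancel_left]⟩
  intro g
  obtain ⟨s, -, rfl⟩ := h1 g
  induction s with
  | nil => exact ⟨_, hB, one [] (by simp)⟩
  | cons a s ih =>
    obtain ⟨Φ, hΦ, ih⟩ := ih
    refine ⟨_, hB.mul hΦ, fun u v hu hv e t => ?_⟩
    obtain ⟨w, hw, e'⟩ := h1 (ev f u * f a)
    refine ⟨_, one [a] (by simp) u w hu hw (by simp [e']) t, _,
      ih w v hw hv (by rw [e', ← e, ev_cons, mul_assoc]) t, ?_⟩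
    simp only
    group

theorem wander [Finite σ] (hF : FT f M) {G₀ C : Subgroup G} [G₀.Normal] [C.Normal]
    [G₀.FiniteIndex] (hc : ∀ a ∈ G₀, ∀ b ∈ C, Commute a b) {s : σ} {d : List A} (hd : d ≠ [])
    (hs : M.evalFrom s d = s) (hG : ev f d ∈ G₀) (hw : Wild f M C s) (φ : G) {h : G}
    (hh : h ∈ G₀) : ∃ j₀, ∀ j, j₀ ≤ j → ∀ p p' m m', M.eval p = s → M.eval p' = s →
      M.evalFrom s m ∈ M.accept → M.evalFrom s m' ∈ M.accept → Tail M (Wild f M C) s m →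
      Tail M (Wild f M C) s m' → ev f m * φ⁻¹ ∈ C → ev f m' * φ⁻¹ ∈ C →
      ev f p * ev f m * (φ⁻¹ * (ev f d ^ j * h * (ev f d ^ j)⁻¹) * φ) = ev f p' * ev f m' →
      h ∈ Cinf (ev f d) := by
  obtain ⟨Φ, hΦ, H⟩ := hF (φ⁻¹ * h * φ)
  obtain ⟨j₁, h₁⟩ := half hF hc hd hs hG hw hΦ
  obtain ⟨j₂, h₂⟩ := half hF hc hd hs hG hw hΦ.inv
  refine ⟨j₁ + j₂, fun j hj p p' m m' e1 e2 e3 e4 e5 e6 e7 e8 e9 => ?_⟩
  obtain ⟨n, hn⟩ : ∃ n, ev f m = n * φ := ⟨ev f m * φ⁻¹, by group⟩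
  obtain ⟨n', hn'⟩ : ∃ n, ev f m' = n * φ := ⟨ev f m' * φ⁻¹, by group⟩
  rw [hn, mul_inv_cancel_right] at e7
  rw [hn', mul_inv_cancel_right] at e8
  have hD := G₀.pow_mem hG j
  generalize hDj : ev f d ^ j = D at hD e9
  have z1 : (ev f p)⁻¹ * ev f p' = n * (D * h * D⁻¹) * n'⁻¹ := by
    rw [hn, hn'] at e9
    calc _ = (ev f p)⁻¹ * (ev f p' * (n' * φ)) * φ⁻¹ * n'⁻¹ := by group
      _ = _ := by rw [← e9]; group
  have z2 : ∀ ζ ∈ G₀ ⊓ C, Commute ((ev f p)⁻¹ * ev f p') ζ := fun ζ hζ => by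
    rw [z1]
    exact ((hc _ hζ.1 _ e7).symm.mul_left (hc _ (G₀.mul_mem (G₀.mul_mem hD hh) (G₀.inv_mem hD))
      _ hζ.2)).mul_left (hc _ hζ.1 _ (C.inv_mem e8)).symm
  have z3 := H (p ++ rep d j ++ m) (p' ++ rep d j ++ m')
    (by simp only [eval_app, e1, loop_rep M hs, e3])
    (by simp only [eval_app, e2, loop_rep M hs, e4]) (by
      have a1 := (hc _ hD _ e7).eq
      have a2 := (hc _ hD _ e8).eq
      simp only [ev_append, ev_rep, hDj, hn, hn']
      calc _ = ev f p * (D * n) * h * φ := by group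
        _ = ev f p * (n * (D * h * D⁻¹) * n'⁻¹) * (n' * D) * φ := by rw [a1]; group
        _ = _ := by rw [← z1, ← a2]; group)
  have z4 : (ev f p)⁻¹ * ev f p' ∈ Cinf (ev f d) := by
    rcases le_total p.length p'.length with l | l
    · exact h₁ j (by omega) p p' m m' e1 e2 e3 e5 l z2 z3
    · have := h₂ j (by omega) p' p m' m e2 e1 e4 e6 l
        (fun ζ hζ => by simpa using (z2 ζ hζ).inv_left) fun t => by simpa using z3 t
      simpa using (Cinf _).inv_mem this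
  have c1 : ∀ x ∈ C, x ∈ Cinf (ev f d) := fun x hx => ⟨1, one_pos, by
    simpa using (hc _ hG _ hx).symm⟩
  have c2 : D ∈ Cinf (ev f d) := ⟨1, one_pos, by
    rw [← hDj]; exact Commute.pow_pow_self _ _ _⟩
  have : h = D⁻¹ * (n⁻¹ * ((ev f p)⁻¹ * ev f p') * n') * D := by rw [z1]; group
  rw [this]
  exact mul_mem (mul_mem (inv_mem c2) (mul_mem (mul_mem (inv_mem (c1 _ e7)) z4) (c1 _ e8))) c2

theorem pow_central [Group.FG G] {d : G} (h : (Cinf d).FiniteIndex) :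
    ∃ n, 0 < n ∧ (Subgroup.centralizer {d ^ n}).FiniteIndex := by
  have : Group.FG (Cinf d) := Subgroup.fg_of_index_ne_zero _
  obtain ⟨S, hS, hf⟩ := (Subgroup.fg_iff _).1 ((Group.fg_iff_subgroup_fg _).1 this)
  have key : ∀ T : Set G, T.Finite → T ⊆ Cinf d → ∃ n, 0 < n ∧ ∀ x ∈ T, Commute x (d ^ n) := by
    intro T hT
    induction T, hT using Set.Finite.induction_on with
    | empty => exact fun _ => ⟨1, one_pos, by simp⟩
    | insert _ _ ih =>
      intro h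
      obtain ⟨n, n1, n2⟩ := ih fun x hx => h (Or.inr hx)
      obtain ⟨k, k1, k2⟩ := h (Or.inl rfl)
      refine ⟨n * k, Nat.mul_pos n1 k1, ?_⟩
      rintro x (rfl | hx)
      · rw [mul_comm, pow_mul]; exact k2.pow_right n
      · rw [pow_mul]; exact (n2 x hx).pow_right k
  obtain ⟨n, n1, n2⟩ := key S hf (by rw [← hS]; exact Subgroup.subset_closure)
  refine ⟨n, n1, Subgroup.finiteIndex_of_le (H := Cinf d) ?_⟩
  rw [← hS, Subgroup.closure_le]
  exact fun x hx => Subgroup.mem_centralizer_singleton_iff.2 (n2 x hx).eq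

/-- The structure theorem. -/
theorem cover (hG : IsAutomatic G)
    (hva : ¬ ∃ H : Subgroup G, H.FiniteIndex ∧ ∀ a ∈ H, ∀ b ∈ H, a * b = b * a) :
    ∃ (G₀ : Subgroup G) (_ : G₀.FiniteIndex) (ι : Type) (_ : Finite ι) (d : ι → G)
      (E : ι → Set G), (∀ g, ∃ i, g ∈ E i) ∧ (∀ i, ¬ (Cinf (d i)).FiniteIndex) ∧
      ∀ i, ∀ h ∈ G₀, h ∉ Cinf (d i) → ∃ j₀, ∀ j, j₀ ≤ j → ∀ g ∈ E i,
        g * (d i ^ j * h * (d i ^ j)⁻¹) ∉ E i := by
  classical
  obtain ⟨A, _, f, L, k, a1, -, ⟨σ, _, M, rfl⟩, a2, a3⟩ := hG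
  have hF : FT f M := ft_of (k := k) a2 fun u v hu hv => a3 u hu v hv
  have : Group.FG G := Group.fg_iff.2 ⟨_, a1, Set.finite_range f⟩
  have ex : ∀ s : σ, ∃ γ : G, (Subgroup.centralizer {γ}).FiniteIndex ∧
      ((∃ c, c ≠ [] ∧ M.evalFrom s c = s ∧ (Cinf (ev f c)).FiniteIndex) →
        ∃ c, c ≠ [] ∧ M.evalFrom s c = s ∧ ∃ n, 0 < n ∧ ev f c ^ n = γ) := by
    intro s
    by_cases h : ∃ c, c ≠ [] ∧ M.evalFrom s c = s ∧ (Cinf (ev f c)).FiniteIndex
    · obtain ⟨c, c1, c2, c3⟩ := h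
      obtain ⟨n, n1, n2⟩ := pow_central c3
      exact ⟨_, n2, fun _ => ⟨c, c1, c2, n, n1, rfl⟩⟩
    · refine ⟨1, ?_, fun h' => absurd h' h⟩
      have : Subgroup.centralizer ({1} : Set G) = ⊤ := by
        ext; simp [Subgroup.mem_centralizer_iff]
      rw [this]; infer_instance
  choose γ g1 g2 using ex
  obtain ⟨G₀, hG₀⟩ : ∃ G₀, G₀ = (⨅ s, Subgroup.centralizer {γ s}).normalCore := ⟨_, rfl⟩
  have : (⨅ s, Subgroup.centralizer {γ s}).FiniteIndex := Subgroup.finiteIndex_iInf g1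
  have : G₀.FiniteIndex := by rw [hG₀]; infer_instance
  have : G₀.Normal := by rw [hG₀]; infer_instance
  obtain ⟨C, hC⟩ : ∃ C, C = Subgroup.centralizer (G₀ : Set G) := ⟨_, rfl⟩
  have : C.Normal := by rw [hC]; infer_instance
  have hc : ∀ a ∈ G₀, ∀ b ∈ C, Commute a b := fun a ha b hb => by
    rw [hC] at hb; exact hb a ha
  have g3 : ∀ s, γ s ∈ C := fun s => by
    rw [hC]
    intro a ha
    rw [hG₀] at ha
    exact Subgroup.mem_centralizer_singleton_iff.1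
      (Subgroup.mem_iInf.1 (Subgroup.normalCore_le _ ha) s)
  have exd : ∀ s : {s // Wild f M C s}, ∃ d, d ≠ [] ∧ M.evalFrom s d = s ∧ ev f d ∈ G₀ ∧
      ¬ (Cinf (ev f d)).FiniteIndex := by
    rintro ⟨s, ⟨c, c1, c2⟩, hs⟩
    obtain ⟨n, n1, n2⟩ := exists_pow_mem G₀ (ev f c)
    have c3 : rep c n ≠ [] := by
      rw [← List.length_pos_iff]; exact n1.trans_le (le_length_rep c1 n)
    refine ⟨rep c n, c3, loop_rep M c2 n, by rwa [ev_rep], fun h => ?_⟩
    obtain ⟨c', b1, b2, r, b3, b4⟩ := g2 s ⟨_, c3, loop_rep M c2 n, h⟩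
    exact hs c' b1 b2 r b3 (b4 ▸ g3 s)
  choose d d1 d2 d3 d4 using exd
  let S : Finset σ := Finset.univ.filter fun t => Acc M t ∧ Co M t ∧ ¬ Wild f M C t
  have fin := paths_finite f M C S fun t ht => by
    obtain ⟨b1, b2, b3⟩ := (Finset.mem_filter.1 ht).2
    exact loops_finite hF hc b1 b2 b3
  have tl : ∀ p m, M.evalFrom (M.eval p) m ∈ M.accept → Tail M (Wild f M C) (M.eval p) m →
      Tail M (· ∉ S) (M.eval p) m := by
    rintro p _ h1 h2 m₁ m₂ rfl h3 h4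
    exact h4 (Finset.mem_filter.2 ⟨Finset.mem_univ _, ⟨p ++ m₁, eval_app M p m₁⟩,
      ⟨m₂, by rwa [DFA.evalFrom_of_append] at h1⟩, h2 m₁ m₂ rfl h3⟩)
  have conj : ∀ φ x h : G, h ∈ Cinf (φ⁻¹ * x * φ) ↔ φ * h * φ⁻¹ ∈ Cinf x := by
    intro φ x h
    refine exists_congr fun n => and_congr_right fun _ => ?_
    have := conj_pow (a := φ⁻¹) (b := x) (i := n)
    rw [inv_inv] at this
    rw [this]
    unfold Commute SemiconjBy
    constructor
    · intro e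
      calc _ = φ * (h * (φ⁻¹ * x ^ n * φ)) * φ⁻¹ := by group
        _ = _ := by rw [e]; group
    · intro e
      calc _ = φ⁻¹ * (φ * h * φ⁻¹ * x ^ n) * φ := by group
        _ = _ := by rw [e]; group
  have cfi : ∀ φ x : G, (Cinf (φ⁻¹ * x * φ)).FiniteIndex → (Cinf x).FiniteIndex := by
    intro φ x h
    refine Subgroup.finiteIndex_of_le (H := (Cinf (φ⁻¹ * x * φ)).normalCore) fun y hy => ?_
    have := (conj φ x _).1 (hy φ⁻¹)
    simpa [mul_assoc] using this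
  obtain ⟨s₀⟩ : Nonempty {s // Wild f M C s} := by
    by_contra h0
    have : Finite (G ⧸ C) := by
      refine Set.finite_univ_iff.1 ((fin M.start).subset fun q _ => ?_)
      obtain ⟨g, rfl⟩ := QuotientGroup.mk_surjective q
      obtain ⟨w, w1, rfl⟩ := a2 g
      exact ⟨w, tl [] w w1 fun _ _ _ _ h => h0 ⟨⟨_, h⟩⟩, rfl⟩
    have : C.FiniteIndex := Subgroup.finiteIndex_of_finite_quotient
    exact hva ⟨G₀ ⊓ C, inferInstance, fun a ha b hb => (hc a ha.1 b hb.2).eq⟩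
  let Q : Set (G ⧸ C) := ⋃ s, {q : G ⧸ C | ∃ m, Tail M (· ∉ S) s m ∧ q = (ev f m : G)}
  have : Finite Q := Set.finite_iUnion fin
  refine ⟨G₀, inferInstance, Option {s // Wild f M C s} × Q, inferInstance,
    fun i => match i with
      | (none, _) => ev f (d s₀)
      | (some s, q) => q.1.out⁻¹ * ev f (d s) * q.1.out,
    fun i => match i with
      | (none, q) => {g | (g : G ⧸ C) = q}
      | (some s, q) => {g | ∃ p m, M.eval p = s ∧ M.evalFrom s m ∈ M.accept ∧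
          Tail M (Wild f M C) s m ∧ ((ev f m : G) : G ⧸ C) = q ∧ g = ev f p * ev f m},
    fun g => ?_, ?_, ?_⟩
  · obtain ⟨w, w1, rfl⟩ := a2 g
    rcases last_visit M (Wild f M C) w M.start with ⟨-, h⟩ | ⟨p, m, rfl, h1, h2⟩
    · exact ⟨(none, ⟨_, Set.mem_iUnion.2 ⟨M.start, w, tl [] w w1 h, rfl⟩⟩), rfl⟩
    · have w2 : M.evalFrom (M.eval p) m ∈ M.accept := by rwa [← eval_app]
      exact ⟨(some ⟨_, h1⟩, ⟨_, Set.mem_iUnion.2 ⟨_, m, tl p m w2 h2, rfl⟩⟩), p, m, rfl, w2, h2,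
        rfl, ev_append f p m⟩
  · rintro ⟨_ | s, q⟩
    · exact d4 s₀
    · exact fun h => d4 s (cfi _ _ h)
  · rintro ⟨_ | s, q⟩ h h1 h2
    · refine ⟨0, fun j _ g e1 e2 => h2 ⟨1, one_pos, ?_⟩⟩
      have e3 := QuotientGroup.eq.1 (e1.trans e2.symm)
      rw [inv_mul_cancel_left] at e3
      have e4 := Subgroup.Normal.conj_mem (inferInstance : C.Normal) _ e3 (ev f (d s₀) ^ j)⁻¹
      simp only [inv_inv, mul_assoc, inv_mul_cancel_left, inv_mul_cancel, mul_one] at e4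
      simpa using (hc _ (d3 s₀) _ e4).symm
    · obtain ⟨j₀, H⟩ := wander hF hc (d1 s) (d2 s) (d3 s) s.2 q.1.out
        (Subgroup.Normal.conj_mem (inferInstance : G₀.Normal) _ h1 q.1.out)
      refine ⟨j₀, fun j hj => ?_⟩
      rintro _ ⟨p, m, b1, b2, b3, b4, rfl⟩ ⟨p', m', c1, c2, c3, c4, c5⟩
      have mem : ∀ x : G, (x : G ⧸ C) = q → x * q.1.out⁻¹ ∈ C := fun x hx => by
        rw [← QuotientGroup.eq_one_iff, QuotientGroup.mk_mul, QuotientGroup.mk_inv, hx,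
          QuotientGroup.out_eq', mul_inv_cancel]
      refine h2 ((conj _ _ _).2 (H j hj p p' m m' b1 c1 b2 c2 b3 c3 (mem _ b4) (mem _ c4) ?_))
      rw [← c5]
      have := conj_pow (a := q.1.out⁻¹) (b := ev f (d s)) (i := j)
      rw [inv_inv] at this
      simp only [this]
      group

end Pool.Agent.Lib.MP_2fb4be_al.Am
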