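import Mathlib
import Pool.Agent.Lib.MP_2fb4be_al.Am.Main

/-!
Amenably conjugable automatic groups are virtually abelian.
-/

set_option autoImplicit false

namespace Pool.Agent.Lib.MP_2fb4be_al.Am

section Mean

variable {X ι : Type} {μ : Set X → ℝ} (h0 : ∀ s, 0 ≤ μ s)
  (h2 : ∀ s t, Disjoint s t → μ (s ∪ t) = μ s + μ t)

include h2 in
theorem mean_empty : μ ∅ = 0 := by
  have := h2 ∅ ∅ (by simp)
  simp only [Set.union_self] at this
  linarith

include h0 h2

theorem mean_mono {s t : Set X} (h : s ⊆ t) : μ s ≤ μ t := by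
  have := h2 s (t \ s) Set.disjoint_sdiff_right
  rw [Set.union_sdiff_cancel h] at this
  have := h0 (t \ s)
  linarith

theorem mean_le (T : Finset ι) (E : ι → Set X) : μ (⋃ i ∈ T, E i) ≤ ∑ i ∈ T, μ (E i) := by
  classical
  induction T using Finset.induction_on with
  | empty => simp [mean_empty h2]
  | insert a T ha ih =>
    rw [Finset.set_biUnion_insert, Finset.sum_insert ha, ← Set.union_sdiff_self,
      h2 _ _ Set.disjoint_sdiff_right]
    have := mean_mono h0 h2 (Set.sdiff_subset (s := ⋃ i ∈ T, E i) (t := E a))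
    linarith

omit h0 in
theorem mean_eq (T : Finset ι) (E : ι → Set X)
    (h : ∀ a ∈ T, ∀ b ∈ T, a ≠ b → Disjoint (E a) (E b)) :
    μ (⋃ i ∈ T, E i) = ∑ i ∈ T, μ (E i) := by
  classical
  induction T using Finset.induction_on with
  | empty => simp [mean_empty h2]
  | insert a T ha ih =>
    rw [Finset.set_biUnion_insert, Finset.sum_insert ha, h2, ih]
    · exact fun x hx y hy => h x (Finset.mem_insert_of_mem hx) y (Finset.mem_insert_of_mem hy)
    · refine Set.disjoint_iUnion₂_right.2 fun b hb => h a (Finset.mem_insert_self _ _) b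
        (Finset.mem_insert_of_mem hb) ?_
      rintro rfl
      exact ha hb

end Mean

theorem no_cover {H : Type} [Group H] (hH : IsAmenable H) {n : ℕ} (E : Fin n → Set H)
    (hE : ∀ g, ∃ i, g ∈ E i) {κ : Type} (T : Fin n → Finset κ) (hT : ∀ i, n < (T i).card)
    (w : Fin n → κ → H) (h : ∀ i, ∀ a ∈ T i, ∀ b ∈ T i, a ≠ b →
      Disjoint ((w i a * ·) '' E i) ((w i b * ·) '' E i)) : False := by
  obtain ⟨μ, h0, h1, h2, h3⟩ := hH
  have a1 : ∀ i, (n + 1 : ℝ) * μ (E i) ≤ 1 := fun i => by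
    have b1 := mean_eq h2 (T i) _ (h i)
    have b2 := mean_mono h0 h2 (Set.subset_univ (⋃ a ∈ T i, (w i a * ·) '' E i))
    simp only [h3, Finset.sum_const, nsmul_eq_mul] at b1
    have b3 : (n + 1 : ℝ) ≤ (T i).card := by exact_mod_cast hT i
    have := mul_le_mul_of_nonneg_right b3 (h0 (E i))
    linarith
  have a2 := mean_le h0 h2 Finset.univ E
  have a3 : ⋃ i ∈ (Finset.univ : Finset (Fin n)), E i = Set.univ := by
    ext g; simpa using hE g
  rw [a3, h1] at a2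
  have a4 := Finset.sum_le_sum fun i (_ : i ∈ Finset.univ) => a1 i
  rw [← Finset.mul_sum] at a4
  simp only [Finset.sum_const, Finset.card_univ, Fintype.card_fin, nsmul_eq_mul, mul_one] at a4
  nlinarith [(Nat.cast_nonneg n : (0 : ℝ) ≤ n)]

theorem virt_abelian {G : Type} [Group G] (hG : IsAutomatic G) (hA : AmenablyConjugable G) :
    ∃ H : Subgroup G, H.FiniteIndex ∧ ∀ a ∈ H, ∀ b ∈ H, a * b = b * a := by
  classical
  by_contra hva
  obtain ⟨G₀, _, ι, _, d, E, h1, h2, h3⟩ := cover hG hva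
  obtain ⟨n, ⟨e⟩⟩ := Finite.exists_equiv_fin ι
  have := Fintype.ofFinite (G ⧸ G₀)
  obtain ⟨t, t1, t2⟩ := hA n (Fintype.card (G ⧸ G₀) * n + 1) (fun i => d (e.symm i))
    fun i => h2 _
  have ex : ∀ i, ∃ y : G ⧸ G₀, n < (Finset.univ.filter fun a => (t i a : G ⧸ G₀) = y).card :=
    fun i => Fintype.exists_lt_card_fiber_of_mul_lt_card _ (by simp)
  choose y hy using ex
  have ex2 : ∀ x : Fin n × Fin (Fintype.card (G ⧸ G₀) * n + 1) ×
      Fin (Fintype.card (G ⧸ G₀) * n + 1), ∃ j₀, x.2.1 ≠ x.2.2 →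
      (t x.1 x.2.1)⁻¹ * t x.1 x.2.2 ∈ G₀ → ∀ j, j₀ ≤ j → ∀ g ∈ E (e.symm x.1),
        g * (d (e.symm x.1) ^ j * ((t x.1 x.2.1)⁻¹ * t x.1 x.2.2) * (d (e.symm x.1) ^ j)⁻¹) ∉
          E (e.symm x.1) := by
    rintro ⟨i, a, b⟩
    by_cases h : a ≠ b ∧ (t i a)⁻¹ * t i b ∈ G₀
    · obtain ⟨j₀, hj⟩ := h3 _ _ h.2 (t1 i a b h.1)
      exact ⟨j₀, fun _ _ => hj⟩
    · exact ⟨0, fun h' h'' => absurd ⟨h', h''⟩ h⟩
  choose J hJ using ex2
  obtain ⟨j, j1, j2⟩ := t2 (Finset.univ.sup J)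
  refine no_cover j2 (fun i => {b | (b : G)⁻¹ ∈ E (e.symm i)}) (fun g => ?_) _ hy
    (fun i a => ⟨_, Subgroup.subset_closure ⟨i, a, rfl⟩⟩) fun i a ha b hb hab => ?_
  · obtain ⟨i, hi⟩ := h1 (g : G)⁻¹
    exact ⟨e i, by simpa using hi⟩
  · rw [Set.disjoint_left]
    rintro _ ⟨x, hx, rfl⟩ ⟨x', hx', c⟩
    have c' := congrArg Subtype.val c
    simp only [Subgroup.coe_mul] at c'
    refine hJ (i, a, b) hab (QuotientGroup.eq.1 ((Finset.mem_filter.1 ha).2.trans
      (Finset.mem_filter.1 hb).2.symm)) (j i)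
      ((Finset.le_sup (Finset.mem_univ _)).trans (j1 i)) _ hx ?_
    have : (x : G)⁻¹ * (d (e.symm i) ^ j i * ((t i a)⁻¹ * t i b) * (d (e.symm i) ^ j i)⁻¹) =
        (x' : G)⁻¹ := by
      calc _ = (d (e.symm i) ^ j i * t i a * (d (e.symm i) ^ j i)⁻¹ * x)⁻¹ *
            (d (e.symm i) ^ j i * t i b * (d (e.symm i) ^ j i)⁻¹ * x') * (x' : G)⁻¹ := by group
        _ = _ := by rw [c']; group
    simp only
    rw [this]
    exact hx'

end Pool.Agent.Lib.MP_2fb4be_al.Am
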