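import Mathlib
import Pool.Agent.Lib.MP_2fb4be_al.Am.Final

/-!
Examples of amenably conjugable groups, and the consequence for Baumslag-Solitar relations.
-/

set_option autoImplicit false

namespace Pool.Agent.Lib.MP_2fb4be_al.Am

theorem amenable_of_injective {K H : Type} [Group K] [Group H] (hH : IsAmenable H) (φ : K →* H)
    (hφ : Function.Injective φ) : IsAmenable K := by
  obtain ⟨μ, h0, h1, h2, h3⟩ := hH
  let r : H → H := fun g => (Quotient.mk (QuotientGroup.rightRel φ.range) g).out
  have r1 : ∀ g, ∃ k, φ k = g * (r g)⁻¹ := fun g =>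
    QuotientGroup.rightRel_apply.1
      (Quotient.exact (Quotient.out_eq (Quotient.mk (QuotientGroup.rightRel φ.range) g)))
  have r2 : ∀ k g, r (φ k * g) = r g := fun k g => by
    refine congrArg Quotient.out (Quotient.sound ?_).symm
    exact QuotientGroup.rightRel_apply.2 ⟨k, by group⟩
  choose c hc using r1
  have c2 : ∀ k g, c (φ k * g) = k * c g := fun k g => hφ (by rw [map_mul, hc, hc, r2, mul_assoc])
  refine ⟨fun s => μ (c ⁻¹' s), fun s => h0 _, h1, fun s t h => ?_, fun k s => ?_⟩
  · exact h2 _ _ (h.preimage c)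
  · refine Eq.trans (congrArg μ ?_) (h3 (φ k) (c ⁻¹' s))
    ext g
    constructor
    · rintro ⟨x, hx, e⟩
      refine ⟨φ k⁻¹ * g, ?_, by simp⟩
      show c _ ∈ s
      rw [c2, ← e]
      simpa using hx
    · rintro ⟨x, hx, rfl⟩
      exact ⟨_, hx, (c2 k x).symm⟩

/-- A group with an amenable normal subgroup on which every element that is not virtually central
stays not virtually central is amenably conjugable. -/
theorem conjugable_of_normal {G : Type} [Group G] (B : Subgroup G) [B.Normal] (hB : IsAmenable B)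
    (h : ∀ d : G, ((Cinf d).subgroupOf B).FiniteIndex → (Cinf d).FiniteIndex) :
    AmenablyConjugable G := by
  intro n N d hd
  have : ∀ i, Infinite (B ⧸ (Cinf (d i)).subgroupOf B) := fun i =>
    not_finite_iff_infinite.1 fun _ => hd i (h _ Subgroup.finiteIndex_of_finite_quotient)
  refine ⟨fun i a => ((Infinite.natEmbedding (B ⧸ (Cinf (d i)).subgroupOf B) a).out : B),
    fun i a b hab hm => hab ?_, fun j₀ => ⟨fun _ => j₀, fun _ => le_rfl, ?_⟩⟩
  · have : ((Infinite.natEmbedding (B ⧸ (Cinf (d i)).subgroupOf B) a).out :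
        B ⧸ (Cinf (d i)).subgroupOf B) =
        (Infinite.natEmbedding (B ⧸ (Cinf (d i)).subgroupOf B) b).out :=
      QuotientGroup.eq.2 hm
    rw [QuotientGroup.out_eq', QuotientGroup.out_eq'] at this
    exact Fin.ext ((Infinite.natEmbedding _).injective this)
  · refine amenable_of_injective hB (Subgroup.inclusion ?_) (Subgroup.inclusion_injective _)
    rw [Subgroup.closure_le]
    rintro _ ⟨i, a, rfl⟩
    exact Subgroup.Normal.conj_mem inferInstance _ (Subtype.property _) _

theorem conjugable_of_amenable {G : Type} [Group G] (h : IsAmenable G) : AmenablyConjugable G :=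
  conjugable_of_normal ⊤ (amenable_of_injective h (⊤ : Subgroup G).subtype Subtype.val_injective)
    fun d hd => ⟨by
      have := hd.index_ne_zero
      rwa [← Subgroup.relIndex, Subgroup.relIndex_top_right] at this⟩

/-- Amenable automatic groups are virtually abelian. -/
theorem amenable_virt_abelian {G : Type} [Group G] (hG : IsAutomatic G) (h : IsAmenable G) :
    ∃ H : Subgroup G, H.FiniteIndex ∧ ∀ a ∈ H, ∀ b ∈ H, a * b = b * a :=
  virt_abelian hG (conjugable_of_amenable h)

/-- In an amenably conjugable automatic group `y x y⁻¹ = x²` forces `x` to have finite order. -/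
theorem finOrder {G : Type} [Group G] (hG : IsAutomatic G) (h : AmenablyConjugable G) (x y : G)
    (hxy : y * x * y⁻¹ = x ^ 2) : IsOfFinOrder x := by
  obtain ⟨H, _, hH⟩ := virt_abelian hG h
  obtain ⟨m, m1, m2⟩ := exists_pow_mem H x
  obtain ⟨n, n1, n2⟩ := exists_pow_mem H y
  have key : ∀ k : ℕ, y ^ k * x * (y ^ k)⁻¹ = x ^ 2 ^ k := by
    intro k
    induction k with
    | zero => simp
    | succ k ih =>
      calc _ = y ^ k * (y * x * y⁻¹) * (y ^ k)⁻¹ := by rw [pow_succ]; group
        _ = _ := by rw [hxy, ← conj_pow, ih, ← pow_mul, pow_succ]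
  have a1 : x ^ (2 ^ n * m) = x ^ m := by
    rw [pow_mul, ← key, conj_pow, hH _ n2 _ m2, mul_inv_cancel_right]
  have a2 : 1 < 2 ^ n := Nat.one_lt_two_pow n1.ne'
  obtain ⟨k, hk⟩ := Nat.exists_eq_add_of_lt a2
  refine isOfFinOrder_iff_pow_eq_one.2 ⟨(k + 1) * m, by positivity, ?_⟩
  rw [hk, show (1 + k + 1) * m = m + (k + 1) * m by ring, pow_add] at a1
  exact mul_eq_left.1 a1

end Pool.Agent.Lib.MP_2fb4be_al.Am
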